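import Pool.Agent.Y116.UV.Graph

/-!
# Open and closed subschemes of schemes of finite type; presentations over `ℚ` by sums of monomials
-/

set_option autoImplicit false

open CategoryTheory AlgebraicGeometry MvPolynomial Pool.Agent.Y116.UV

namespace Pool.Agent.U583.MW

section

variable {R : Type} [CommRing R] [IsNoetherianRing R] {sep : Prop} {Z X U : Sch R}

omit [IsNoetherianRing R] in
lemma ft_closed (i : Z ⟶ X) (h : FT sep X) (hi : IsClosedImmersion i.left) : FT sep Z := by
  have h1 := h.locallyOfFiniteType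
  have h2 := h.quasiCompact
  have e : i.left ≫ X.hom = Z.hom := Over.w i
  refine ⟨?_, ?_, fun hs => ?_⟩
  · rw [← e]
    exact MorphismProperty.comp_mem _ i.left X.hom inferInstance h1
  · rw [← e]
    exact MorphismProperty.comp_mem _ i.left X.hom inferInstance h2
  · have h3 := h.separated hs
    rw [← e]
    exact MorphismProperty.comp_mem _ i.left X.hom inferInstance h3

lemma isNoetherian_left (h : FT sep X) : IsNoetherian X.left := by
  have h1 := h.locallyOfFiniteType
  have h2 := h.quasiCompact
  have h3 : IsNoetherian ((Functor.fromPUnit (Spec (CommRingCat.of R))).obj X.right) := by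
    change IsNoetherian (Spec (CommRingCat.of R))
    infer_instance
  have h4 : CompactSpace X.left := by
    have h5 : CompactSpace ((Functor.fromPUnit (Spec (CommRingCat.of R))).obj X.right) :=
      inferInstance
    exact QuasiCompact.compactSpace_of_compactSpace X.hom
  exact { __ := LocallyOfFiniteType.isLocallyNoetherian X.hom }

lemma ft_opened (j : U ⟶ X) (h : FT sep X) (hj : IsOpenImmersion j.left) : FT sep U := by
  have h1 := h.locallyOfFiniteType
  have h2 := h.quasiCompact
  have h3 := isNoetherian_left h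
  have e : j.left ≫ X.hom = U.hom := Over.w j
  have h4 : IsLocallyNoetherian U.left := isLocallyNoetherian_of_isOpenImmersion j.left
  have h5 : TopologicalSpace.NoetherianSpace U.left :=
    j.left.isOpenEmbedding.isInducing.noetherianSpace
  have h6 : QuasiCompact j.left := inferInstance
  refine ⟨?_, ?_, fun hs => ?_⟩
  · rw [← e]
    exact MorphismProperty.comp_mem _ j.left X.hom inferInstance h1
  · rw [← e]
    exact MorphismProperty.comp_mem _ j.left X.hom h6 h2
  · have h3 := h.separated hs
    rw [← e]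
    exact MorphismProperty.comp_mem _ j.left X.hom inferInstance h3

end

/-- Over `ℚ` every algebra of finite type has a presentation by sums of monomials. -/
theorem presents_rat : Presents ({0, 1} : Set ℚ) := by
  classical
  apply presents_of
  intro A _ _ _
  obtain ⟨n, φ, G₀, hs, hK₀, -⟩ := presents_univ (R := ℚ) A
  -- common denominators
  let d : MvPolynomial (Fin n) ℚ → ℚ := fun g => ∏ m ∈ g.support, ((coeff m g).den : ℚ)
  have hd : ∀ g, d g ≠ 0 := fun g => Finset.prod_ne_zero_iff.2 fun m _ =>
    Nat.cast_ne_zero.2 (coeff m g).den_nz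
  let G : Finset (MvPolynomial (Fin n) ℚ) := G₀.image fun g => C (d g) * g
  have hK : RingHom.ker φ = Ideal.span (G : Set (MvPolynomial (Fin n) ℚ)) := by
    rw [hK₀]
    apply le_antisymm
    · rw [Ideal.span_le]
      intro g hg
      have h1 : C (d g) * g ∈ Ideal.span (G : Set (MvPolynomial (Fin n) ℚ)) :=
        Ideal.subset_span (Finset.mem_coe.2 (Finset.mem_image_of_mem _ hg))
      have h2 : g = C (d g)⁻¹ * (C (d g) * g) := by
        rw [← mul_assoc, ← C_mul, inv_mul_cancel₀ (hd g), C_1, one_mul]
      change g ∈ Ideal.span (G : Set (MvPolynomial (Fin n) ℚ))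
      rw [h2]
      exact Ideal.mul_mem_left _ _ h1
    · rw [Ideal.span_le]
      intro g hg
      obtain ⟨g', hg', rfl⟩ := Finset.mem_image.1 (Finset.mem_coe.1 hg)
      exact Ideal.mul_mem_left _ _ (Ideal.subset_span hg')
  have hint : ∀ g ∈ G, ∀ m, ∃ z : ℤ, (z : ℚ) = coeff m g := by
    intro g hg m
    obtain ⟨g', -, rfl⟩ := Finset.mem_image.1 hg
    rw [coeff_C_mul]
    by_cases hm : m ∈ g'.support
    · refine ⟨(∏ m ∈ g'.support.erase m, ((coeff m g').den : ℤ)) * (coeff m g').num, ?_⟩
      have h1 : d g' = ((coeff m g').den : ℚ) * ∏ m ∈ g'.support.erase m, ((coeff m g').den : ℚ) :=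
        (Finset.mul_prod_erase _ _ hm).symm
      rw [h1]
      push_cast
      have h2 := Rat.mul_den_eq_num (coeff m g')
      linear_combination (-(∏ m ∈ g'.support.erase m, ((coeff m g').den : ℚ))) * h2
    · refine ⟨0, ?_⟩
      rw [notMem_support_iff.1 hm]
      simp
  choose! w hw using hint
  let K : ℕ := ∑ g ∈ G, ∑ m ∈ g.support, (w g m).natAbs
  let z : (Fin n →₀ ℕ) → MvPolynomial (Fin n) ℚ → Cs K := fun m g =>
    if h : w g m ∈ Finset.Icc (-(K : ℤ)) K then ⟨_, h⟩ else zr K
  have hz : ∀ g ∈ G, ∀ m ∈ g.support, (((z m g).1 : ℤ) : ℚ) = coeff m g := by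
    intro g hg m hm
    have h1 : (w g m).natAbs ≤ ∑ m ∈ g.support, (w g m).natAbs :=
      Finset.single_le_sum (f := fun m : Fin n →₀ ℕ => (w g m).natAbs)
        (fun _ _ => Nat.zero_le _) hm
    have h2 : ∑ m ∈ g.support, (w g m).natAbs ≤ K :=
      Finset.single_le_sum (f := fun g : MvPolynomial (Fin n) ℚ =>
        ∑ m ∈ g.support, (w g m).natAbs) (fun _ _ => Nat.zero_le _) hg
    have h3 : w g m ∈ Finset.Icc (-(K : ℤ)) K := by
      rw [Finset.mem_Icc]
      omega
    have h4 : z m g = ⟨_, h3⟩ := dif_pos h3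
    rw [h4]
    exact hw g hg m
  refine ⟨Vs n K, inferInstance, φ.comp (sb ℚ n K), Finset.univ.image (rel K G z), ?_, ?_, ?_⟩
  · intro a
    obtain ⟨p, rfl⟩ := hs a
    refine ⟨rename Sum.inl p, ?_⟩
    change φ (sb ℚ n K (rename Sum.inl p)) = φ p
    congr 1
    rw [sb, aeval_rename]
    exact aeval_X_left_apply _
  · rw [ker_sb K G z hz φ hK, rI]
    congr 1
    simp
  · intro g hg m
    obtain ⟨k, -, rfl⟩ := Finset.mem_image.mp hg
    exact coeff_ms_mem _ _

/-- Over `ℚ`: a property with the closure properties `Uni` which is true for the hypersurfaces of the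
tripartite hypergraphs is true for all (separated) schemes of finite type. -/
theorem universal_rat {sep : Prop} {P : Sch ℚ → Prop} (hP : Uni sep P)
    (hH : ∀ (a b c : ℕ) (H : Finset (Fin a × Fin b × Fin c)), P (tripS ℚ H))
    (X : Sch ℚ) (hX : FT sep X) : P X := by
  classical
  refine universal hP (S := {0, 1}) (Or.inl rfl) (Or.inr rfl) ?_ presents_rat X hX
  intro a b c T hT
  let H : Finset (Fin a × Fin b × Fin c) := Finset.univ.filter fun h => T h.1 h.2.1 h.2.2 = 1
  have h1 : T = fun i j k => if (i, j, k) ∈ H then (1 : ℚ) else 0 := by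
    funext i j k
    have hm : (i, j, k) ∈ H ↔ T i j k = 1 := by
      rw [Finset.mem_filter]
      exact ⟨fun h => h.2, fun h => ⟨Finset.mem_univ _, h⟩⟩
    by_cases h : T i j k = 1
    · rw [if_pos (hm.mpr h), h]
    · rw [if_neg fun h2 => h (hm.mp h2)]
      rcases hT i j k with h2 | h2
      · exact h2
      · exact absurd h2 h
  have h2 := hH a b c H
  unfold tripS Trip at h2
  rw [← tri_ind, ← h1] at h2
  exact h2

end Pool.Agent.U583.MW
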