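import Pool.Agent.U583.MW.Five
import Pool.Agent.U583.MW.Geo
import Pool.Agent.Z125.UN.Sym
import Pool.Agent.Z125.UN.Dim2

/-!
# Universality of trilinear hypersurfaces for the monodromy-weight conjecture
-/

set_option autoImplicit false

open CategoryTheory AlgebraicGeometry MvPolynomial Pool.Agent.Y116.UV Pool.Agent.Z125.UN
open Pool.Agent.Y143

namespace Pool.Agent.U583.MW

universe u v

section

variable {R : Type} [CommRing R] [IsNoetherianRing R] {Ω : Type u} [Field Ω] [CharZero Ω]
  [IsAlgClosed Ω] {q : ℕ} (H : Coh.{u, v} R Ω q)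

omit [IsNoetherianRing R] [IsAlgClosed Ω] in
lemma mw_empty {X : Sch R} (h : IsEmpty X.left) : H.MW X :=
  fun i w => Rep.pure_of_subsingleton (H.empty i w X h)

lemma isEmpty_aff (B : Type) [CommRing B] [Algebra R B] (h : Subsingleton B) :
    IsEmpty (aff R B).left :=
  (inferInstance : IsEmpty (PrimeSpectrum B))

/-- The monodromy-weight conjecture has the closure properties `Bnd`. -/
theorem bnd (hq : 1 < q) : Bnd True H.MW where
  iso {X Y} h e hX i w := (Rep.iso (by omega) (H.iso i w X Y h e)).1 (hX i w)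
  total {Z X U} i j h ht hZ hU n w := by
    obtain ⟨a, b, d, h1, h2, h3⟩ := H.sequence w i j h ht
    have fZ := ft_closed i h ht.closed
    have fU := ft_opened j h ht.opened
    obtain ⟨m, rfl⟩ : ∃ m, n = m + 1 := ⟨n - 1, by ring⟩
    exact Rep.five hq (H.weights m w Z fZ) (H.weights (m + 1) w U fU) (H.weights (m + 1) w X h)
      (H.weights (m + 1) w Z fZ) (H.weights (m + 1 + 1) w U fU) (d m) (a (m + 1)) (b (m + 1))
      (d (m + 1)) (h3 m) (h1 (m + 1)) (h2 (m + 1)) (hZ _ w) (hU _ w) (hZ _ w) (hU _ w)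
  opened {Z X U} i j h ht hZ hX n w := by
    obtain ⟨a, b, d, h1, h2, h3⟩ := H.sequence w i j h ht
    have fZ := ft_closed i h ht.closed
    have fU := ft_opened j h ht.opened
    obtain ⟨m, rfl⟩ : ∃ m, n = m + 1 := ⟨n - 1, by ring⟩
    exact Rep.five hq (H.weights m w X h) (H.weights m w Z fZ) (H.weights (m + 1) w U fU)
      (H.weights (m + 1) w X h) (H.weights (m + 1) w Z fZ) (b m) (d m) (a (m + 1))
      (b (m + 1)) (h2 m) (h3 m) (h1 (m + 1)) (hX _ w) (hZ _ w) (hX _ w) (hZ _ w)
  closed {Z X U} i j h ht hX hU n w := by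
    obtain ⟨a, b, d, h1, h2, h3⟩ := H.sequence w i j h ht
    have fZ := ft_closed i h ht.closed
    have fU := ft_opened j h ht.opened
    exact Rep.five hq (H.weights n w U fU) (H.weights n w X h) (H.weights n w Z fZ)
      (H.weights (n + 1) w U fU) (H.weights (n + 1) w X h) (a n) (b n) (d n)
      (a (n + 1)) (h1 n) (h2 n) (h3 n) (hU _ w) (hX _ w) (hU _ w) (hX _ w)
  space m n w := by
    have h0 : H.MW (aff R R) := by
      intro i w
      by_cases h : i ≠ 0 ∨ w ≠ 0
      · exact Rep.pure_of_subsingleton ((H.point i w).1 h)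
      · push Not at h
        obtain ⟨rfl, rfl⟩ := h
        exact Rep.pure_trivial (by omega) (H.point 0 0).2.1 (H.point 0 0).2.2
    obtain ⟨i, rfl⟩ : ∃ i, n = i + 2 * m := ⟨n - 2 * m, by ring⟩
    obtain ⟨w, rfl⟩ : ∃ w', w = w' + 2 * m := ⟨w - 2 * m, by ring⟩
    have h1 := H.bundle i w R m (f1 R m) (aff R R) (𝟙 _) ⟨inferInstance, range_id m⟩
    have h2 := (Rep.twist (w := w) (by omega) h1).1 (h0 i w)
    exact (Rep.iso (by omega) (H.iso _ _ _ _ (ft_aff True)
      ⟨(affIso (jouOne R m)).symm⟩)).1 h2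
  jouanolou A _ _ _ m f U j hj hr h n w := by
    cases m with
    | zero =>
      refine Rep.pure_of_subsingleton (H.empty n w U ⟨fun x => ?_⟩)
      have h1 : j.left x ∈ Set.range j.left := ⟨x, rfl⟩
      rw [hr] at h1
      obtain ⟨l, -⟩ := h1
      exact l.elim0
    | succ m => exact (Rep.twist (by omega) (H.bundle n w A m f U j ⟨hj, hr⟩)).2 (h _ _)
  torus A _ _ _ h n w := by
    have h1 : Algebra.FiniteType R (LaurentPolynomial A) := ft_laurent (R := R) A
    exact Rep.factor hq (H.weights _ _ _ (ft_aff True)) (H.weights _ _ _ (ft_aff True))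
      (H.torus n w A) (h _ _)
  bundle A _ _ _ m f U j hj hr h n w := by
    cases m with
    | zero =>
      refine Rep.pure_of_subsingleton (H.empty n w _ (isEmpty_aff _ ?_))
      refine Ideal.Quotient.subsingleton_iff.mpr ?_
      rw [Ideal.eq_top_iff_one, Ideal.mem_span_singleton]
      exact ⟨-1, by simp⟩
    | succ m =>
      obtain ⟨i, rfl⟩ : ∃ i, n = i + 2 * m := ⟨n - 2 * m, by ring⟩
      obtain ⟨w, rfl⟩ : ∃ w', w = w' + 2 * m := ⟨w - 2 * m, by ring⟩
      exact (Rep.twist (by omega) (H.bundle i w A m f U j ⟨hj, hr⟩)).1 (h _ _)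

end

section field

variable {k : Type} [Field k] [PerfectField k] {Ω : Type u} [Field Ω] [CharZero Ω]
  [IsAlgClosed Ω] {q : ℕ} (H : Coh.{u, v} k Ω q)

/-- schemes of dimension at most `n` and trilinear forms with a block of at most `n + 2` variables -/
theorem dim_iff (hq : 1 < q) (n : ℕ) : H.MWDim n ↔ H.MWTri (n + 2) := by
  have hB := bnd H hq
  refine ⟨fun h a b c T hm => ?_, fun h X hX hn => ?_⟩
  · have h2 : ∀ I : Ideal (MvPolynomial (Fin (n + 1)) k),
        H.MW (aff k (MvPolynomial (Fin (n + 1)) k ⧸ I)) :=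
      dim_to_closed hB fun A _ _ _ hA => h _ (ft_aff True) (by rw [topDim_aff]; exact hA)
    exact of_block hB (fun a b c' hc' T => to_tri hB h2 a b c' hc' T) T hm
  · exact (dim_tri hB n).mpr (fun a b T => h a b (n + 2) T (Or.inr (Or.inr le_rfl))) X hX hn

lemma isEmpty_of_dim_lt {X : Scheme.{0}} (h : topologicalKrullDim X < (0 : ℕ)) : IsEmpty X := by
  by_contra hne
  rw [not_isEmpty_iff] at hne
  obtain ⟨x⟩ := hne
  have h1 : Nonempty (TopologicalSpace.IrreducibleCloseds X) :=
    ⟨⟨closure {x}, isIrreducible_singleton.closure, isClosed_closure⟩⟩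
  have h2 : 0 ≤ topologicalKrullDim X := Order.krullDim_nonneg
  exact absurd (lt_of_le_of_lt h2 h) (by simp)

/-- The members of a class like the class of smooth projective schemes. -/
theorem pr_iff (hq : 1 < q) {C : Sch k → Prop} (hC : IsProjClass H C) (n : ℕ) :
    H.MWPr C n ↔ H.MWTri (n + 2) := by
  rw [← dim_iff H hq n]
  constructor
  · intro h
    have hB := bnd H hq
    have hP : ∀ X : Sch k, C X → topologicalKrullDim X.left ≤ n → H.MW X := by
      intro X hX hn i w
      by_cases hiw : i = w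
      · subst hiw
        exact h X hX hn i
      · exact Rep.pure_of_subsingleton (hC.weil X hX i w hiw)
    have key : ∀ d : ℕ, d ≤ n → H.MWDim d := by
      intro d
      induction d with
      | zero =>
        intro hdn X hX hdim
        refine of_affine_dim hB (of_smooth hB fun A _ _ _ hA => ?_) X hX hdim
        obtain ⟨Z, X', i, j, ht, hCX, hd1, hd2⟩ := hC.compactify 0 A hA
        refine hB.opened i j (hC.ft X' hCX) ht ?_ (hP X' hCX (hd1.trans (by exact_mod_cast hdn)))
        exact mw_empty H (isEmpty_of_dim_lt hd2)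
      | succ d ih =>
        intro hdn X hX hdim
        refine of_affine_dim hB (of_smooth hB fun A _ _ _ hA => ?_) X hX hdim
        obtain ⟨Z, X', i, j, ht, hCX, hd1, hd2⟩ := hC.compactify (d + 1) A hA
        refine hB.opened i j (hC.ft X' hCX) ht ?_ (hP X' hCX (hd1.trans (by exact_mod_cast hdn)))
        refine ih (by omega) Z (ft_closed i (hC.ft X' hCX) ht.closed) ?_
        have h4 : ((d + 1 : ℕ) : WithBot ℕ∞) = ((d : ℕ) : WithBot ℕ∞) + 1 := by norm_num
        rw [h4] at hd2
        exact ENat.WithBot.lt_add_one_iff.mp hd2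
    exact key n le_rfl
  · intro h X hX hn i
    exact h X (hC.ft X hX) hn i i

end field

section rat

variable {Ω : Type u} [Field Ω] [CharZero Ω] [IsAlgClosed Ω] {q : ℕ} (H : Coh.{u, v} ℚ Ω q)

lemma tripS_iff {a b c : ℕ} (S : Finset (Fin a × Fin b × Fin c)) :
    H.MW (tripS ℚ S) ↔ H.MW (hypS fun i j k => if (i, j, k) ∈ S then (1 : ℚ) else 0) := by
  unfold tripS hypS Trip Hyp
  rw [tri_ind]

/-- Over `ℚ`: coefficients `0` and `1`. -/
theorem rat_iff (hq : 1 < q) {C : Sch ℚ → Prop} (hC : IsProjClass H C) :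
    (∀ X : Sch ℚ, C X → ∀ i : ℤ, (H.gr i i X).Pure q i) ↔
      ∀ (a b c : ℕ) (S : Finset (Fin a × Fin b × Fin c)), H.MW (tripS ℚ S) := by
  constructor
  · intro h a b c S
    rw [tripS_iff]
    exact (pr_iff H hq hC c).1 (fun X hX _ i => h X hX i) a b c _ (Or.inr (Or.inr (by omega)))
  · intro h X hX i
    exact universal_rat (bnd H hq).toUni h X (hC.ft X hX) i i

end rat

end Pool.Agent.U583.MW
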