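import Pool.Agent.Y116.UV.Graph
import Pool.Agent.Z125.UN.Bnd

/-!
# The hypersurface `T(x, y, z) = 1` and the cone `T(x, y, z) = 0`

The complement of the cone `T(x, y, z) = 0` in the affine space is the product of the hypersurface
`T(x, y, z) = 1` with the multiplicative group.
-/

set_option autoImplicit false

open CategoryTheory AlgebraicGeometry MvPolynomial Pool.Agent.Y116.UV Pool.Agent.Z125.UN

namespace Pool.Agent.U583.MW

/-- The affine cubic cone `T(x, y, z) = 0`. -/
noncomputable def coneS {R : Type} [CommRing R] {a b c : ℕ} (T : Fin a → Fin b → Fin c → R) : Sch R :=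
  aff R (MvPolynomial (Fin a ⊕ (Fin b ⊕ Fin c)) R ⧸ Ideal.span {tri T})

section

variable {R : Type} [CommRing R] {α β γ : Type} [Fintype α] [Fintype β] [Fintype γ]
  (T : α → β → γ → R)

/-- the localization -/
abbrev Lo : Type := Localization.Away (tri T)

/-- the class in the localization -/
noncomputable def lo : MvPolynomial (α ⊕ (β ⊕ γ)) R →ₐ[R] Lo T :=
  IsScalarTower.toAlgHom R (MvPolynomial (α ⊕ (β ⊕ γ)) R) (Lo T)

lemma isUnit_lo : IsUnit (lo T (tri T)) :=
  IsLocalization.Away.algebraMap_isUnit (tri T)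

/-- the unit `T` -/
noncomputable def uT : (Lo T)ˣ := (isUnit_lo T).unit

lemma uT_val : (uT T : Lo T) = lo T (tri T) := rfl

/-- the class in the ring of functions on the hypersurface -/
noncomputable def mk1 : MvPolynomial (α ⊕ (β ⊕ γ)) R →ₐ[R] Hyp T :=
  Ideal.Quotient.mkₐ R (Ideal.span {tri T - 1})

lemma mk1_tri : mk1 T (tri T) = 1 := by
  have h : mk1 T (tri T - 1) = 0 :=
    Ideal.Quotient.eq_zero_iff_mem.mpr (Ideal.mem_span_singleton_self _)
  rw [map_sub, map_one] at h
  exact sub_eq_zero.1 h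

/-- the constants among the Laurent polynomials -/
noncomputable def cl : Hyp T →ₐ[R] LaurentPolynomial (Hyp T) :=
  IsScalarTower.toAlgHom R (Hyp T) (LaurentPolynomial (Hyp T))

lemma cl_apply (x : Hyp T) : cl T x = LaurentPolynomial.C x := rfl

lemma tri_mul {B : Type} [CommRing B] [Algebra R B] (f : MvPolynomial (α ⊕ (β ⊕ γ)) R →ₐ[R] B)
    (t : B) : aeval (Sum.elim (fun i => f (X (Sum.inl i)) * t) fun s => f (X (Sum.inr s)))
      (tri T) = f (tri T) * t := by
  have h1 : f (tri T) = aeval (fun s => f (X s)) (tri T) := by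
    have h2 : f = aeval (fun s => f (X s)) := by
      apply MvPolynomial.algHom_ext
      intro s
      rw [aeval_X]
    exact congrArg (fun g : MvPolynomial (α ⊕ (β ⊕ γ)) R →ₐ[R] B => g (tri T)) h2
  rw [h1, aeval_tri, aeval_tri, Finset.sum_mul]
  refine Finset.sum_congr rfl fun i _ => ?_
  rw [Finset.sum_mul]
  refine Finset.sum_congr rfl fun j _ => ?_
  rw [Finset.sum_mul]
  refine Finset.sum_congr rfl fun k _ => ?_
  simp only [Sum.elim_inl, Sum.elim_inr]
  ring

/-- the coordinates on the product -/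
noncomputable def cf0 : MvPolynomial (α ⊕ (β ⊕ γ)) R →ₐ[R] LaurentPolynomial (Hyp T) :=
  aeval (Sum.elim (fun i => cl T (mk1 T (X (Sum.inl i))) * LaurentPolynomial.T 1)
    fun s => cl T (mk1 T (X (Sum.inr s))))

lemma cf0_tri : cf0 T (tri T) = LaurentPolynomial.T 1 := by
  have h := tri_mul T (B := LaurentPolynomial (Hyp T)) ((cl T).comp (mk1 T))
    (LaurentPolynomial.T 1)
  rw [AlgHom.comp_apply, mk1_tri, map_one, one_mul] at h
  exact h

lemma cf0_inl (i : α) : cf0 T (X (Sum.inl i)) =
    LaurentPolynomial.C (mk1 T (X (Sum.inl i))) * LaurentPolynomial.T 1 := by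
  rw [cf0, aeval_X]
  rfl

lemma cf0_inr (s : β ⊕ γ) : cf0 T (X (Sum.inr s)) = LaurentPolynomial.C (mk1 T (X (Sum.inr s))) := by
  rw [cf0, aeval_X]
  rfl

/-- from the complement of the cone to the product -/
noncomputable def cf : Lo T →ₐ[R] LaurentPolynomial (Hyp T) :=
  IsLocalization.liftAlgHom (A := R) (R := MvPolynomial (α ⊕ (β ⊕ γ)) R) (S := Lo T)
    (P := LaurentPolynomial (Hyp T)) (M := Submonoid.powers (tri T)) (f := cf0 T) (by
    rintro ⟨_, k, rfl⟩
    change IsUnit (cf0 T (tri T ^ k))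
    rw [map_pow, cf0_tri]
    exact (LaurentPolynomial.isUnit_T 1).pow k)

lemma cf_lo (p : MvPolynomial (α ⊕ (β ⊕ γ)) R) : cf T (lo T p) = cf0 T p := by
  rw [cf, IsLocalization.liftAlgHom_apply]
  exact IsLocalization.lift_eq (M := Submonoid.powers (tri T)) (S := Lo T) _ p

/-- from the hypersurface -/
noncomputable def cg0 : Hyp T →ₐ[R] Lo T :=
  Ideal.Quotient.liftₐ (Ideal.span {tri T - 1})
    (aeval (Sum.elim (fun i => lo T (X (Sum.inl i)) * ((uT T)⁻¹ : (Lo T)ˣ))
      fun s => lo T (X (Sum.inr s)))) (by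
    intro p hp
    have h9 : Ideal.span {tri T - 1} ≤ RingHom.ker
        (aeval (Sum.elim (fun i => lo T (X (Sum.inl i)) * ((uT T)⁻¹ : (Lo T)ˣ))
          fun s => lo T (X (Sum.inr s))) : MvPolynomial (α ⊕ (β ⊕ γ)) R →ₐ[R] Lo T) := by
      rw [Ideal.span_le, Set.singleton_subset_iff]
      change aeval _ (tri T - 1) = 0
      rw [map_sub, tri_mul, map_one, ← uT_val, Units.mul_inv, sub_self]
    exact h9 hp)

lemma cg0_inl (i : α) : cg0 T (mk1 T (X (Sum.inl i))) =
    lo T (X (Sum.inl i)) * ((uT T)⁻¹ : (Lo T)ˣ) := by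
  have h : cg0 T (mk1 T (X (Sum.inl i))) =
    aeval (Sum.elim (fun i => lo T (X (Sum.inl i)) * ((uT T)⁻¹ : (Lo T)ˣ))
      fun s => lo T (X (Sum.inr s))) (X (Sum.inl i)) := rfl
  rw [h, aeval_X]
  rfl

lemma cg0_inr (s : β ⊕ γ) : cg0 T (mk1 T (X (Sum.inr s))) = lo T (X (Sum.inr s)) := by
  have h : cg0 T (mk1 T (X (Sum.inr s))) =
    aeval (Sum.elim (fun i => lo T (X (Sum.inl i)) * ((uT T)⁻¹ : (Lo T)ˣ))
      fun s => lo T (X (Sum.inr s))) (X (Sum.inr s)) := rfl
  rw [h, aeval_X]
  rfl

/-- from the product -/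
noncomputable def cg : LaurentPolynomial (Hyp T) →+* Lo T :=
  LaurentPolynomial.eval₂ (cg0 T).toRingHom (uT T)

lemma cg_C (x : Hyp T) : cg T (LaurentPolynomial.C x) = cg0 T x := by
  rw [cg, LaurentPolynomial.eval₂_C]
  rfl

lemma cg_T : cg T (LaurentPolynomial.T 1) = uT T := by
  rw [cg, LaurentPolynomial.eval₂_T, zpow_one]

lemma cf_inv : cf T ((uT T)⁻¹ : (Lo T)ˣ) = LaurentPolynomial.T (-1) := by
  have h1 : cf T ((uT T)⁻¹ : (Lo T)ˣ) * cf T (uT T) = 1 := by
    rw [← map_mul, Units.inv_mul, map_one]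
  have h2 : cf T (uT T : Lo T) = LaurentPolynomial.T 1 := by rw [uT_val, cf_lo, cf0_tri]
  rw [h2] at h1
  calc cf T ((uT T)⁻¹ : (Lo T)ˣ) = cf T ((uT T)⁻¹ : (Lo T)ˣ) *
        (LaurentPolynomial.T 1 * LaurentPolynomial.T (-1)) := by
        rw [← LaurentPolynomial.T_add]
        simp
    _ = LaurentPolynomial.T (-1) := by rw [← mul_assoc, h1, one_mul]

lemma cf_cg0 (x : Hyp T) : cf T (cg0 T x) = LaurentPolynomial.C x := by
  have h : (cf T).comp (cg0 T) = cl T := by
    apply Ideal.Quotient.algHom_ext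
    apply MvPolynomial.algHom_ext
    rintro (i | s)
    · change cf T (cg0 T (mk1 T (X (Sum.inl i)))) = cl T (mk1 T (X (Sum.inl i)))
      rw [cg0_inl, map_mul, cf_lo, cf_inv, cf0_inl, mul_assoc, ← LaurentPolynomial.T_add, cl_apply]
      simp
    · change cf T (cg0 T (mk1 T (X (Sum.inr s)))) = cl T (mk1 T (X (Sum.inr s)))
      rw [cg0_inr, cf_lo, cf0_inr]
      rfl
  exact congrArg (fun f : Hyp T →ₐ[R] _ => f x) h

lemma cf_cg : (cf T).toRingHom.comp (cg T) = RingHom.id _ := by
  refine laurent_hom_ext (B := Hyp T) (C := LaurentPolynomial (Hyp T)) _ _ ?_ ?_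
  · intro x
    change cf T (cg T (LaurentPolynomial.C x)) = LaurentPolynomial.C x
    rw [cg_C, cf_cg0]
  · change cf T (cg T (LaurentPolynomial.T 1)) = LaurentPolynomial.T 1
    rw [cg_T, uT_val, cf_lo, cf0_tri]

lemma cg_cf : (cg T).comp (cf T).toRingHom = RingHom.id _ := by
  apply IsLocalization.ringHom_ext (Submonoid.powers (tri T))
  apply MvPolynomial.ringHom_ext
  · intro r
    change cg T (cf T (lo T (C r))) = lo T (C r)
    have h1 : lo T (C r) = algebraMap R (Lo T) r := (lo T).commutes r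
    have h2 : algebraMap R (LaurentPolynomial (Hyp T)) r =
      LaurentPolynomial.C (algebraMap R (Hyp T) r) := rfl
    rw [h1, AlgHom.commutes, h2, cg_C, AlgHom.commutes]
  · rintro (i | s)
    · change cg T (cf T (lo T (X (Sum.inl i)))) = lo T (X (Sum.inl i))
      rw [cf_lo, cf0_inl, map_mul, cg_C, cg_T, cg0_inl, mul_assoc, Units.inv_mul, mul_one]
    · change cg T (cf T (lo T (X (Sum.inr s)))) = lo T (X (Sum.inr s))
      rw [cf_lo, cf0_inr, cg_C, cg0_inr]

/-- The complement of the cone is the product of the hypersurface with the multiplicative group. -/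
noncomputable def coneE : Lo T ≃ₐ[R] LaurentPolynomial (Hyp T) :=
  AlgEquiv.ofRingEquiv (f := RingEquiv.ofRingHom (cf T).toRingHom (cg T) (cf_cg T)
    (cg_cf T)) (fun r => (cf T).commutes r)

end

section

variable {R : Type} [CommRing R] {sep : Prop} {P : Sch R → Prop} (hP : Bnd sep P)

include hP

/-- from `X` to `X × 𝔾_m` -/
lemma p_laurent (A : Type) [CommRing A] [Algebra R A] [Algebra.FiniteType R A] (h : P (aff R A)) :
    P (aff R (LaurentPolynomial A)) := by
  have h1 : P (aff R (Polynomial A)) := by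
    have : Algebra.FiniteType R (MvPolynomial Unit A) :=
      Algebra.FiniteType.trans (S := A) inferInstance inferInstance
    exact iso_alg hP.toUni ((MvPolynomial.uniqueAlgEquiv A Unit).restrictScalars R) (p_poly hP Unit h)
  have hf : Algebra.FiniteType R (Polynomial A) :=
    Algebra.FiniteType.trans (S := A) inferInstance inferInstance
  have h2 : P (aff R (Polynomial A ⧸ Ideal.span {(Polynomial.X : Polynomial A)})) := by
    have e1 : (Polynomial A ⧸ Ideal.span {(Polynomial.X : Polynomial A) - Polynomial.C 0}) ≃ₐ[A] A :=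
      Polynomial.quotientSpanXSubCAlgEquiv (0 : A)
    rw [Polynomial.C_0, sub_zero] at e1
    exact iso_alg hP.toUni (e1.symm.restrictScalars R) h
  have h3 := hP.opened _ _ (ft_aff sep) (triple_away (Polynomial.X : Polynomial A)) h2 h1
  have hf2 : Algebra.FiniteType R (Localization.Away (Polynomial.X : Polynomial A)) :=
    Algebra.FiniteType.trans (S := Polynomial A) inferInstance inferInstance
  have e2 : Localization.Away (Polynomial.X : Polynomial A) ≃ₐ[Polynomial A] LaurentPolynomial A :=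
    IsLocalization.algEquiv (Submonoid.powers (Polynomial.X : Polynomial A)) _ _
  have e3 : Localization.Away (Polynomial.X : Polynomial A) ≃ₐ[R] LaurentPolynomial A :=
    AlgEquiv.ofRingEquiv (f := e2.toRingEquiv) (fun r => by
      change e2 (algebraMap R _ r) = _
      rw [IsScalarTower.algebraMap_apply R (Polynomial A)
        (Localization.Away (Polynomial.X : Polynomial A)), AlgEquiv.commutes,
        LaurentPolynomial.algebraMap_eq_toLaurent]
      change Polynomial.toLaurent (Polynomial.C (algebraMap R A r)) = _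
      rw [Polynomial.toLaurent_C]
      rfl)
  exact iso_alg hP.toUni e3 h3

/-- The hypersurface and the cone. -/
theorem cone_iff {a b c : ℕ} (T : Fin a → Fin b → Fin c → R) : P (hypS T) ↔ P (coneS T) := by
  have hs : P (aff R (MvPolynomial (Fin a ⊕ (Fin b ⊕ Fin c)) R)) := by
    have : Algebra.FiniteType R (MvPolynomial (Fin (Fintype.card (Fin a ⊕ (Fin b ⊕ Fin c)))) R) :=
      inferInstance
    exact iso_alg hP.toUni (renameEquiv R (Fintype.equivFin (Fin a ⊕ (Fin b ⊕ Fin c))).symm)
      (hP.space _)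
  constructor
  · intro h
    have h1 := p_laurent hP (Hyp T) h
    have : Algebra.FiniteType R (LaurentPolynomial (Hyp T)) := ft_laurent _
    have h2 : P (aff R (Lo T)) := iso_alg hP.toUni (coneE T).symm h1
    exact hP.closed _ _ (ft_aff sep) (triple_away (tri T)) hs h2
  · intro h
    have h1 : P (aff R (Lo T)) := hP.opened _ _ (ft_aff sep) (triple_away (tri T)) h hs
    have hf : Algebra.FiniteType R (Lo T) :=
      Algebra.FiniteType.trans (S := MvPolynomial (Fin a ⊕ (Fin b ⊕ Fin c)) R) inferInstance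
        inferInstance
    exact hP.torus _ (iso_alg hP.toUni (coneE T) h1)

end

end Pool.Agent.U583.MW
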