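import Pool.Agent.Y116.UV.Defs
import Pool.Agent.Y143.Defs

/-!
# The weight-graded pieces of the cohomology with compact support, formally

`K` is a `p`-adic field with residue field of `q` elements (or any local field), `ℓ ≠ p`, `Ω` is an
algebraic closure of `ℚ_ℓ`, and `R` is a ring with a homomorphism to `K`. For a separated scheme `X` of
finite type over `R` the theory gives the graded pieces `gr^W_w H^i_c(X_K̄, Ω)` of the weight
filtration, with the operator of a fixed lift of the geometric Frobenius and the monodromy operator.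
-/

set_option autoImplicit false

open CategoryTheory AlgebraicGeometry Module Pool.Agent.Y116.UV Pool.Agent.Y143

namespace Pool.Agent.U583.MW

universe u v

/-- A vector space over `Ω` with the operators `Φ` (a lift of the geometric Frobenius) and `N` (the
monodromy operator). -/
structure Rep (Ω : Type u) [Field Ω] where
  /-- the vector space -/
  V : Type v
  [grp : AddCommGroup V]
  [mod : Module Ω V]
  /-- the operator of a lift of the geometric Frobenius -/
  Φ : Module.End Ω V
  /-- the monodromy operator -/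
  N : Module.End Ω V

attribute [instance] Rep.grp Rep.mod

namespace Rep

variable {Ω : Type u} [Field Ω]

/-- A linear map which commutes with the Frobenius and with the monodromy. -/
structure Hom (A B : Rep.{u, v} Ω) where
  /-- the linear map -/
  f : A.V →ₗ[Ω] B.V
  Φ : ∀ x, f (A.Φ x) = B.Φ (f x)
  N : ∀ x, f (A.N x) = B.N (f x)

/-- `B` is isomorphic to the Tate twist `A(-m)`: the geometric Frobenius acts on `Ω(-m)` by `q ^ m`. -/
def IsTwist (q m : ℕ) (A B : Rep.{u, v} Ω) : Prop :=
  ∃ e : A.V ≃ₗ[Ω] B.V, (∀ x, B.Φ (e x) = (q : Ω) ^ m • e (A.Φ x)) ∧ ∀ x, B.N (e x) = e (A.N x)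

/-- `A` and `B` are isomorphic. -/
def IsIso (A B : Rep.{u, v} Ω) : Prop :=
  ∃ e : A.V ≃ₗ[Ω] B.V, (∀ x, B.Φ (e x) = e (A.Φ x)) ∧ ∀ x, B.N (e x) = e (A.N x)

/-- `A` is a direct factor of `B`. -/
def IsFactor (A B : Rep.{u, v} Ω) : Prop :=
  ∃ (s : Hom A B) (r : Hom B A), ∀ x, r.f (s.f x) = x

/-- The vector space is finite-dimensional, `N Φ = q Φ N` (so `N` is a morphism `A → A(-1)`), and every
eigenvalue of `Φ` is a `q`-Weil number of some integral weight. -/
structure HasWeights [CharZero Ω] (q : ℕ) (A : Rep.{u, v} Ω) : Prop where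
  finite : Module.Finite Ω A.V
  comm : ∀ x, A.N (A.Φ x) = (q : Ω) • A.Φ (A.N x)
  weil : ∀ (α : Ω) (x : A.V), x ≠ 0 → A.Φ x = α • x → ∃ w : ℤ, IsWeilNumber q w α

/-- `A` is mw pure of weight `w`: every eigenvalue of `Φ` on the graded piece `gr_a` of the monodromy
filtration is a `q`-Weil number of weight `a + w`, for all `a`. -/
def Pure [CharZero Ω] (q : ℕ) (w : ℤ) (A : Rep.{u, v} Ω) : Prop := IsMWPure q w A.Φ A.N

end Rep

/-- The sequence `... → U i → X i → Z i → U (i + 1) → ...` is exact for suitable morphisms. -/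
def LongExact {Ω : Type u} [Field Ω] (U X Z : ℤ → Rep.{u, v} Ω) : Prop :=
  ∃ (a : ∀ i, Rep.Hom (U i) (X i)) (b : ∀ i, Rep.Hom (X i) (Z i)) (d : ∀ i, Rep.Hom (Z i) (U (i + 1))),
    (∀ i, Function.Exact (a i).f (b i).f) ∧ (∀ i, Function.Exact (b i).f (d i).f) ∧
    ∀ i, Function.Exact (d i).f (a (i + 1)).f

/-- The image of the open immersion `j` is the complement of `f = 0` in `Spec A`. -/
def IsCompl {R A : Type} [CommRing R] [CommRing A] [Algebra R A] {m : ℕ} (f : Fin m → A) {U : Sch R}
    (j : U ⟶ aff R A) : Prop :=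
  IsOpenImmersion j.left ∧ Set.range j.left = {x : PrimeSpectrum A | ∃ l, f l ∉ x.asIdeal}

/-- The properties of the spaces `gr i w X = gr^W_w H^i_c(X_K̄, Ω)` which are used. -/
structure Coh (R : Type) [CommRing R] (Ω : Type u) [Field Ω] [CharZero Ω] (q : ℕ) where
  /-- the graded piece of weight `w` of the cohomology with compact support in degree `i` -/
  gr : ℤ → ℤ → Sch R → Rep.{u, v} Ω
  /-- finiteness, and the eigenvalues of the Frobenius are Weil numbers (Deligne, de Jong) -/
  weights : ∀ (i w : ℤ) (X : Sch R), FT True X → (gr i w X).HasWeights q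
  /-- isomorphic schemes have isomorphic cohomology -/
  iso : ∀ (i w : ℤ) (X Y : Sch R), FT True X → Nonempty (X ≅ Y) → (gr i w X).IsIso (gr i w Y)
  /-- the cohomology of the empty scheme is zero -/
  empty : ∀ (i w : ℤ) (X : Sch R), IsEmpty X.left → Subsingleton (gr i w X).V
  /-- the exact sequence of a closed subscheme `Z` of `X` with open complement `U`; the functor `gr^W_w`
  is exact -/
  sequence : ∀ (w : ℤ) {Z X U : Sch R} (i : Z ⟶ X) (j : U ⟶ X), FT True X → IsTriple i j →
    LongExact (fun n => gr n w U) (fun n => gr n w X) (fun n => gr n w Z)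
  /-- the cohomology of a point: `Ω` in degree `0` and weight `0` -/
  point : ∀ i w : ℤ, ((i ≠ 0 ∨ w ≠ 0) → Subsingleton (gr i w (aff R R)).V) ∧
    (∀ x, (gr 0 0 (aff R R)).Φ x = x) ∧ ∀ x, (gr 0 0 (aff R R)).N x = 0
  /-- Jouanolou's scheme `∑ f_l w_l = 1` in `m + 1` variables is an affine bundle of rank `m` over the
  complement of `f = 0` -/
  bundle : ∀ (i w : ℤ) (A : Type) [CommRing A] [Algebra R A] [Algebra.FiniteType R A] (m : ℕ)
    (f : Fin (m + 1) → A) (U : Sch R) (j : U ⟶ aff R A), IsCompl f j →
    (gr i w U).IsTwist q m (gr (i + 2 * m) (w + 2 * m) (aff R (Jou f)))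
  /-- `H^i_c(X)` is a direct factor of `H^(i + 1)_c(X × 𝔾_m)` (Künneth formula) -/
  torus : ∀ (i w : ℤ) (A : Type) [CommRing A] [Algebra R A] [Algebra.FiniteType R A],
    (gr i w (aff R A)).IsFactor (gr (i + 1) w (aff R (LaurentPolynomial A)))

namespace Coh

variable {R : Type} [CommRing R] {Ω : Type u} [Field Ω] [CharZero Ω] {q : ℕ}
  (H : Coh.{u, v} R Ω q)

/-- The monodromy-weight conjecture for `X`: all `gr^W_w H^i_c(X_K̄, Ω)` are mw pure of weight `w`. -/
def MW (X : Sch R) : Prop := ∀ i w : ℤ, (H.gr i w X).Pure q w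

/-- The monodromy-weight conjecture for the separated schemes of finite type of dimension at most
`n`. -/
def MWDim (n : ℕ) : Prop :=
  ∀ X : Sch R, FT True X → topologicalKrullDim X.left ≤ n → H.MW X

/-- The monodromy-weight conjecture for the trilinear hypersurfaces `T(x, y, z) = 1` over `R` with at
most `m` variables in one of the three blocks of variables. -/
def MWTri (m : ℕ) : Prop :=
  ∀ (a b c : ℕ) (T : Fin a → Fin b → Fin c → R), (a ≤ m ∨ b ≤ m ∨ c ≤ m) → H.MW (hypS T)

/-- The monodromy-weight conjecture for the members of dimension at most `n` of a class of smooth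
proper schemes: `H^i(X_K̄, Ω)` is mw pure of weight `i`. -/
def MWPr (C : Sch R → Prop) (n : ℕ) : Prop :=
  ∀ X : Sch R, C X → topologicalKrullDim X.left ≤ n → ∀ i : ℤ, (H.gr i i X).Pure q i

end Coh

/-- `C` is a class of schemes over `k` like the class of all smooth projective schemes: its members are
separated of finite type, `H^i(X_K̄, Ω)` is of weight `i` for its members `X` (Deligne), and (Hironaka)
every smooth affine scheme of dimension at most `d` is the complement of a closed subscheme of dimension
less than `d` in a member of `C` of dimension at most `d`. -/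
structure IsProjClass {R : Type} [CommRing R] {Ω : Type u} [Field Ω] [CharZero Ω] {q : ℕ}
    (H : Coh.{u, v} R Ω q) (C : Sch R → Prop) : Prop where
  ft : ∀ X, C X → FT True X
  weil : ∀ X, C X → ∀ i w : ℤ, i ≠ w → Subsingleton (H.gr i w X).V
  compactify : ∀ (d : ℕ) (A : Type) [CommRing A] [Algebra R A] [Algebra.Smooth R A],
    ringKrullDim A ≤ d → ∃ (Z X : Sch R) (i : Z ⟶ X) (j : aff R A ⟶ X), IsTriple i j ∧ C X ∧
      topologicalKrullDim X.left ≤ d ∧ topologicalKrullDim Z.left < d

end Pool.Agent.U583.MW
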