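import Pool.Agent.U583.MW.Lin
import Pool.Agent.U583.MW.Defs

/-!
# mw purity: five-term exact sequences, direct factors, Tate twists
-/

set_option autoImplicit false

open Module Pool.Agent.Y143 Pool.Agent.Y136.UB Pool.Agent.Y163.MW Pool.Agent.Y163.MW.Coh

namespace Pool.Agent.U583.MW

universe u v

namespace Rep

variable {Ω : Type u} [Field Ω] [CharZero Ω] {q : ℕ} {w : ℤ}

lemma HasWeights.isRep {A : Rep.{u, v} Ω} (h : A.HasWeights q) : IsRep q A.Φ A.N :=
  ⟨h.finite, h.comm, h.weil⟩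

lemma Hom.part {A B : Rep.{u, v} Ω} (g : Hom A B) (c : ℤ) {x : A.V}
    (hx : x ∈ MW.part q w A.Φ c) : g.f x ∈ MW.part q w B.Φ c := map_part g.f g.Φ c hx

lemma Hom.pow {A B : Rep.{u, v} Ω} (g : Hom A B) (k : ℕ) (x : A.V) :
    g.f ((A.N ^ k) x) = (B.N ^ k) (g.f x) := by
  induction k generalizing x with
  | zero => rfl
  | succ k ih =>
    rw [pow_succ, Module.End.mul_apply, pow_succ, Module.End.mul_apply, ih, g.N]

/-- The five lemma for mw purity. -/
theorem five [IsAlgClosed Ω] (hq : 1 < q) {A B C D E : Rep.{u, v} Ω} (hA : A.HasWeights q)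
    (hB : B.HasWeights q) (hC : C.HasWeights q) (hD : D.HasWeights q) (hE : E.HasWeights q)
    (f : Hom A B) (g : Hom B C) (h : Hom C D) (e : Hom D E) (h1 : Function.Exact f.f g.f)
    (h2 : Function.Exact g.f h.f) (h3 : Function.Exact h.f e.f) (pA : A.Pure q w)
    (pB : B.Pure q w) (pD : D.Pure q w) (pE : E.Pure q w) : C.Pure q w := by
  unfold Rep.Pure at *
  rw [pure_iff hq hA.isRep] at pA
  rw [pure_iff hq hB.isRep] at pB
  rw [pure_iff hq hD.isRep] at pD
  rw [pure_iff hq hE.isRep] at pE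
  rw [pure_iff hq hC.isRep]
  intro k
  constructor
  · intro x hx hN
    have h4 : h.f x = 0 := by
      refine (pD k).1 _ (h.part k hx) ?_
      rw [← h.pow, hN, map_zero]
    obtain ⟨y, hy, rfl⟩ := exact_part hq hB.isRep hC.isRep g.f h.f g.Φ h2 k hx h4
    have h5 : g.f ((B.N ^ k) y) = 0 := by rw [g.pow]; exact hN
    obtain ⟨z, hz, hz'⟩ := exact_part hq hA.isRep hB.isRep f.f g.f f.Φ h1 (-(k : ℤ))
      (N_pow_part hq hB.isRep k hy) h5
    obtain ⟨z', hz1, rfl⟩ := (pA k).2 z hz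
    have h6 : y - f.f z' = 0 := by
      refine (pB k).1 _ (sub_mem hy (f.part k hz1)) ?_
      rw [map_sub, ← f.pow, hz', sub_self]
    rw [sub_eq_zero.1 h6]
    exact (h1 _).2 ⟨z', rfl⟩
  · intro y hy
    obtain ⟨d, hd, hd'⟩ := (pD k).2 (h.f y) (h.part _ hy)
    have h4 : e.f d = 0 := by
      refine (pE k).1 _ (e.part k hd) ?_
      rw [← e.pow, hd']
      exact (h3 _).2 ⟨y, rfl⟩
    obtain ⟨c, hc, rfl⟩ := exact_part hq hC.isRep hD.isRep h.f e.f h.Φ h3 k hd h4
    have h5 : h.f (y - (C.N ^ k) c) = 0 := by rw [map_sub, h.pow, hd', sub_self]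
    obtain ⟨b, hb, hb'⟩ := exact_part hq hB.isRep hC.isRep g.f h.f g.Φ h2 (-(k : ℤ))
      (sub_mem hy (N_pow_part hq hC.isRep k hc)) h5
    obtain ⟨b', hb1, rfl⟩ := (pB k).2 b hb
    refine ⟨c + g.f b', add_mem hc (g.part k hb1), ?_⟩
    rw [map_add, ← g.pow, hb', add_sub_cancel]

/-- Direct factors. -/
theorem factor [IsAlgClosed Ω] (hq : 1 < q) {A B : Rep.{u, v} Ω} (hA : A.HasWeights q)
    (hB : B.HasWeights q) (h : A.IsFactor B) (pB : B.Pure q w) : A.Pure q w := by
  obtain ⟨s, r, hr⟩ := h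
  unfold Rep.Pure at *
  rw [pure_iff hq hB.isRep] at pB
  rw [pure_iff hq hA.isRep]
  intro k
  constructor
  · intro x hx hN
    have h4 : s.f x = 0 := by
      refine (pB k).1 _ (s.part k hx) ?_
      rw [← s.pow, hN, map_zero]
    rw [← hr x, h4, map_zero]
  · intro y hy
    obtain ⟨d, hd, hd'⟩ := (pB k).2 (s.f y) (s.part _ hy)
    refine ⟨r.f d, r.part k hd, ?_⟩
    rw [← r.pow, hd', hr]

theorem pure_of_subsingleton {A : Rep.{u, v} Ω} (h : Subsingleton A.V) : A.Pure q w := by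
  refine ⟨fun _ => ⊤, ⟨fun _ _ _ => le_rfl, ⟨0, ?_⟩, ⟨0, rfl⟩, fun _ _ _ => trivial,
    fun _ _ _ _ => trivial, fun _ y _ => ⟨y, trivial, trivial⟩⟩, fun _ _ _ => trivial, ?_⟩
  · exact (Submodule.eq_bot_iff _).2 fun x _ => Subsingleton.elim _ _
  · intro a α x _ hx
    exact absurd trivial hx

/-- Tate twists. -/
theorem twist (hq : 0 < q) {A B : Rep.{u, v} Ω} {m : ℕ} (h : A.IsTwist q m B) :
    A.Pure q w ↔ B.Pure q (w + 2 * m) := by
  obtain ⟨e, h1, h2⟩ := h
  have hq0 : (q : Ω) ≠ 0 := Nat.cast_ne_zero.2 (by omega)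
  have hc : (q : Ω) ^ m ≠ 0 := pow_ne_zero _ hq0
  have hpow : ∀ (k : ℕ) (x : A.V), (B.N ^ k) (e x) = e ((A.N ^ k) x) := by
    intro k
    induction k with
    | zero => intro x; rfl
    | succ k ih =>
      intro x
      rw [pow_succ, Module.End.mul_apply, pow_succ, Module.End.mul_apply, h2, ih]
  constructor
  · rintro ⟨M, hM, hs, hw⟩
    refine ⟨fun a => (M a).comap (e.symm : B.V →ₗ[Ω] A.V), ⟨?_, ?_, ?_, ?_, ?_, ?_⟩, ?_, ?_⟩
    · exact fun a b hab => Submodule.comap_mono (hM.mono hab)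
    · obtain ⟨a, ha⟩ := hM.bot
      refine ⟨a, (Submodule.eq_bot_iff _).2 fun x hx => ?_⟩
      change e.symm x ∈ M a at hx
      rw [ha, Submodule.mem_bot] at hx
      simpa using hx
    · obtain ⟨a, ha⟩ := hM.top
      exact ⟨a, by simp only [ha]; rfl⟩
    · intro a x hx
      change e.symm (B.N x) ∈ M (a - 2)
      have h3 : e.symm (B.N x) = A.N (e.symm x) := by
        rw [LinearEquiv.symm_apply_eq, ← h2, LinearEquiv.apply_symm_apply]
      rw [h3]
      exact hM.map a _ hx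
    · intro a x hx hN
      change e.symm x ∈ M (a - 1)
      change e.symm ((B.N ^ a) x) ∈ M (-a - 1) at hN
      have h3 : e.symm ((B.N ^ a) x) = (A.N ^ a) (e.symm x) := by
        rw [LinearEquiv.symm_apply_eq, ← hpow, LinearEquiv.apply_symm_apply]
      rw [h3] at hN
      exact hM.inj a _ hx hN
    · intro a y hy
      obtain ⟨x, hx, hx'⟩ := hM.surj a (e.symm y) hy
      refine ⟨e x, ?_, ?_⟩
      · change e.symm (e x) ∈ M a
        rwa [LinearEquiv.symm_apply_apply]
      · change e.symm (y - (B.N ^ a) (e x)) ∈ M (-a - 1)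
        rw [map_sub, hpow, LinearEquiv.symm_apply_apply]
        exact hx'
    · intro a x hx
      change e.symm (B.Φ x) ∈ M a
      have h3 : e.symm (B.Φ x) = (q : Ω) ^ m • A.Φ (e.symm x) := by
        rw [LinearEquiv.symm_apply_eq, map_smul, ← h1, LinearEquiv.apply_symm_apply]
      rw [h3]
      exact Submodule.smul_mem _ _ (hs a _ hx)
    · intro a α x hx hx1 hx2
      change e.symm (B.Φ x - α • x) ∈ M (a - 1) at hx2
      have h3 : e.symm (B.Φ x) = (q : Ω) ^ m • A.Φ (e.symm x) := by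
        rw [LinearEquiv.symm_apply_eq, map_smul, ← h1, LinearEquiv.apply_symm_apply]
      have h4 : A.Φ (e.symm x) - (((q : Ω) ^ m)⁻¹ * α) • e.symm x ∈ M (a - 1) := by
        have h5 : e.symm (B.Φ x - α • x) = (q : Ω) ^ m • (A.Φ (e.symm x) -
            (((q : Ω) ^ m)⁻¹ * α) • e.symm x) := by
          rw [map_sub, h3, map_smul, smul_sub, smul_smul, mul_inv_cancel_left₀ hc]
        rw [h5] at hx2
        exact (Submodule.smul_mem_iff _ hc).1 hx2
      have h5 := (hw a _ _ hx hx1 h4).twist (by omega : q ≠ 0) m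
      rw [zpow_natCast, mul_inv_cancel_left₀ hc] at h5
      rwa [show a + (w + 2 * m) = a + w + 2 * m by ring]
  · rintro ⟨M, hM, hs, hw⟩
    refine ⟨fun a => (M a).comap (e : A.V →ₗ[Ω] B.V), ⟨?_, ?_, ?_, ?_, ?_, ?_⟩, ?_, ?_⟩
    · exact fun a b hab => Submodule.comap_mono (hM.mono hab)
    · obtain ⟨a, ha⟩ := hM.bot
      refine ⟨a, (Submodule.eq_bot_iff _).2 fun x hx => ?_⟩
      change e x ∈ M a at hx
      rw [ha, Submodule.mem_bot] at hx
      simpa using hx
    · obtain ⟨a, ha⟩ := hM.top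
      exact ⟨a, by simp only [ha]; rfl⟩
    · intro a x hx
      change e (A.N x) ∈ M (a - 2)
      rw [← h2]
      exact hM.map a _ hx
    · intro a x hx hN
      change e x ∈ M (a - 1)
      change e ((A.N ^ a) x) ∈ M (-a - 1) at hN
      rw [← hpow] at hN
      exact hM.inj a _ hx hN
    · intro a y hy
      obtain ⟨x, hx, hx'⟩ := hM.surj a (e y) hy
      refine ⟨e.symm x, ?_, ?_⟩
      · change e (e.symm x) ∈ M a
        rwa [LinearEquiv.apply_symm_apply]
      · change e (y - (A.N ^ a) (e.symm x)) ∈ M (-a - 1)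
        rw [map_sub, ← hpow, LinearEquiv.apply_symm_apply]
        exact hx'
    · intro a x hx
      change e (A.Φ x) ∈ M a
      have h3 : e (A.Φ x) = ((q : Ω) ^ m)⁻¹ • B.Φ (e x) := by
        rw [h1, smul_smul, inv_mul_cancel₀ hc, one_smul]
      rw [h3]
      exact Submodule.smul_mem _ _ (hs a _ hx)
    · intro a α x hx hx1 hx2
      change e (A.Φ x - α • x) ∈ M (a - 1) at hx2
      have h4 : B.Φ (e x) - ((q : Ω) ^ m * α) • e x ∈ M (a - 1) := by
        have h5 : B.Φ (e x) - ((q : Ω) ^ m * α) • e x = (q : Ω) ^ m • e (A.Φ x - α • x) := by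
          rw [map_sub, h1, map_smul, smul_sub, smul_smul]
        rw [h5]
        exact Submodule.smul_mem _ _ hx2
      have h5 := (hw a _ _ hx hx1 h4).twist (by omega : q ≠ 0) (-m)
      rw [zpow_neg, zpow_natCast, inv_mul_cancel_left₀ hc] at h5
      rwa [show a + (w + 2 * (m : ℤ)) + 2 * -(m : ℤ) = a + w by ring] at h5

/-- Isomorphic spaces. -/
theorem iso (hq : 0 < q) {A B : Rep.{u, v} Ω} (h : A.IsIso B) : A.Pure q w ↔ B.Pure q w := by
  have h1 : A.IsTwist q 0 B := by
    obtain ⟨e, h1, h2⟩ := h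
    exact ⟨e, fun x => by rw [pow_zero, one_smul, h1], h2⟩
  have h2 := twist (w := w) hq h1
  simpa using h2

/-- The one-dimensional space `Ω` of weight `0`, and its multiples. -/
theorem pure_trivial (hq : 0 < q) {A : Rep.{u, v} Ω} (h1 : ∀ x, A.Φ x = x) (h2 : ∀ x, A.N x = 0) :
    A.Pure q 0 := by
  have h3 : ∀ (a : ℕ) (x : A.V), 0 < a → (A.N ^ a) x = 0 := by
    intro a x ha
    obtain ⟨b, rfl⟩ := Nat.exists_eq_succ_of_ne_zero ha.ne'
    rw [pow_succ', Module.End.mul_apply, h2]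
  refine ⟨fun a => if 0 ≤ a then ⊤ else ⊥, ⟨?_, ⟨-1, ?_⟩, ⟨0, ?_⟩, ?_, ?_, ?_⟩, ?_, ?_⟩
  · intro a b hab
    by_cases ha : 0 ≤ a
    · simp only [if_pos ha, if_pos (ha.trans hab), le_refl]
    · simp only [if_neg ha, bot_le]
  · simp
  · simp
  · intro a x _
    rw [h2]
    exact zero_mem _
  · intro a x hx hN
    rcases Nat.eq_zero_or_pos a with rfl | ha
    · simpa using hN
    · have h4 : (0 : ℤ) ≤ (a : ℤ) - 1 := by omega
      simp only [if_pos h4, Submodule.mem_top]
  · intro a y hy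
    rcases Nat.eq_zero_or_pos a with rfl | ha
    · refine ⟨y, by simp, ?_⟩
      rw [pow_zero, Module.End.one_apply, sub_self]
      exact zero_mem _
    · have h4 : ¬ (0 : ℤ) ≤ -(a : ℤ) := by omega
      simp only [if_neg h4, Submodule.mem_bot] at hy
      refine ⟨0, zero_mem _, ?_⟩
      rw [hy, map_zero, sub_zero]
      exact zero_mem _
  · intro a x hx
    rwa [h1]
  · intro a α x hx hx1 hx2
    by_cases ha : 0 ≤ a
    · by_cases ha1 : 0 ≤ a - 1
      · simp only [if_pos ha1, Submodule.mem_top, not_true_eq_false] at hx1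
      · have h0 : a = 0 := by omega
        subst h0
        simp only [if_neg ha1, Submodule.mem_bot] at hx1 hx2
        rw [h1] at hx2
        have h4 : α = 1 := by
          by_contra hne
          have h5 : (1 - α) • x = 0 := by rw [sub_smul, one_smul]; exact hx2
          rcases smul_eq_zero.1 h5 with h6 | h6
          · exact hne (sub_eq_zero.1 h6).symm
          · exact hx1 h6
        have h5 := weil_natPow (Ω := Ω) hq 0
        rw [h4]
        simpa using h5
    · simp only [if_neg ha, Submodule.mem_bot] at hx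
      have h4 : x ∈ (if 0 ≤ a - 1 then (⊤ : Submodule Ω A.V) else ⊥) := by
        rw [hx]
        exact zero_mem _
      exact absurd h4 hx1

end Rep

end Pool.Agent.U583.MW
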