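import Pool.Agent.Y163.MW.Wt
import Pool.Agent.Y48.MW.G

/-!
# mw purity in exact sequences

Finite-dimensional spaces with a Frobenius operator `Φ` and a monodromy operator `N`; the
decomposition by weights; mw purity is inherited in five-term exact sequences.
-/

set_option autoImplicit false

open Module Pool.Agent.Y143 Pool.Agent.Y136.UB Pool.Agent.Y163.MW Pool.Agent.Y163.MW.Coh

namespace Pool.Agent.U583.MW

universe u v

section

variable {Ω : Type u} [Field Ω] [CharZero Ω]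

/-- `V` is finite-dimensional, `N Φ = q Φ N`, and all eigenvalues of `Φ` are `q`-Weil numbers of
integral weights. -/
structure IsRep (q : ℕ) {V : Type v} [AddCommGroup V] [Module Ω V] (Φ N : Module.End Ω V) :
    Prop where
  finite : Module.Finite Ω V
  comm : ∀ x, N (Φ x) = (q : Ω) • Φ (N x)
  weil : ∀ (α : Ω) (x : V), x ≠ 0 → Φ x = α • x → ∃ w : ℤ, IsWeilNumber q w α

variable {V : Type v} [AddCommGroup V] [Module Ω V]

/-- the part of `V` of weight `c + w` -/
def part (q : ℕ) (w : ℤ) (Φ : Module.End Ω V) (c : ℤ) : Submodule Ω V :=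
  ⨆ (α : Ω) (_ : IsWeilNumber q (c + w) α), Φ.maxGenEigenspace α

variable {q : ℕ} {w : ℤ} {Φ N : Module.End Ω V}

lemma weil_of_gen (h : IsRep q Φ N) {α : Ω} {x : V} (hx : x ∈ Φ.maxGenEigenspace α)
    (h0 : x ≠ 0) : ∃ w : ℤ, IsWeilNumber q w α := by
  obtain ⟨y, -, hy0, hy⟩ := exists_eigen_of_gen (S := ⊤) (fun _ _ => trivial) trivial hx h0
  exact h.weil α y hy0 hy

lemma gen_eq_bot (h : IsRep q Φ N) {α : Ω} (hα : ¬ ∃ w : ℤ, IsWeilNumber q w α) :
    Φ.maxGenEigenspace α = ⊥ := by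
  rw [Submodule.eq_bot_iff]
  intro x hx
  by_contra h0
  exact hα (weil_of_gen h hx h0)

lemma part_eq (hq : 1 < q) (h : IsRep q Φ N) (c : ℤ) :
    part q w Φ c = ⨆ (α : Ω) (_ : wtf q α - w = c), Φ.maxGenEigenspace α := by
  apply le_antisymm
  · refine iSup₂_le fun α hα => ?_
    refine le_iSup₂_of_le α ?_ le_rfl
    rw [wtf_eq hq hα]
    ring
  · refine iSup₂_le fun α hα => ?_
    by_cases h1 : ∃ w : ℤ, IsWeilNumber q w α
    · obtain ⟨w', hw⟩ := h1
      rw [wtf_eq hq hw] at hα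
      refine le_iSup₂_of_le α ?_ le_rfl
      rwa [show c + w = w' by omega]
    · rw [gen_eq_bot h h1]
      exact bot_le

lemma indep_part (hq : 1 < q) (h : IsRep q Φ N) : iSupIndep (part q w Φ) := by
  have h1 := iSupIndep_fib (Module.End.independent_maxGenEigenspace Φ) (fun α : Ω => wtf q α - w)
  have e : part q w Φ = fun j : ℤ => ⨆ (α : Ω) (_ : wtf q α - w = j), Φ.maxGenEigenspace α := by
    funext c
    exact part_eq hq h c
  rw [e]
  exact h1

lemma iSup_part [IsAlgClosed Ω] (hq : 1 < q) (h : IsRep q Φ N) : ⨆ c, part q w Φ c = ⊤ := by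
  have := h.finite
  have h1 := iSup_fib (fun α : Ω => Φ.maxGenEigenspace α) (fun α : Ω => wtf q α - w)
  rw [Module.End.iSup_maxGenEigenspace_eq_top Φ] at h1
  rw [← h1]
  exact iSup_congr fun c => part_eq hq h c

lemma isInternal_part [IsAlgClosed Ω] (hq : 1 < q) (h : IsRep q Φ N) :
    DirectSum.IsInternal (part q w Φ) :=
  DirectSum.isInternal_submodule_of_iSupIndep_of_iSup_eq_top (indep_part hq h) (iSup_part hq h)

/-- Morphisms preserve the parts. -/
lemma map_part {V' : Type v} [AddCommGroup V'] [Module Ω V'] {Φ' : Module.End Ω V'}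
    (f : V →ₗ[Ω] V') (hf : ∀ x, f (Φ x) = Φ' (f x)) (c : ℤ) {x : V} (hx : x ∈ part q w Φ c) :
    f x ∈ part q w Φ' c := by
  have h : part q w Φ c ≤ (part q w Φ' c).comap f := by
    refine iSup₂_le fun α hα => ?_
    intro y hy
    refine Submodule.mem_iSup_of_mem α (Submodule.mem_iSup_of_mem hα ?_)
    exact gen_map f (fun y => (hf y).symm) hy
  exact h hx

lemma Phi_part (c : ℤ) {x : V} (hx : x ∈ part q w Φ c) : Φ x ∈ part q w Φ c :=
  map_part Φ (fun _ => rfl) c hx

lemma N_part (hq : 1 < q) (h : IsRep q Φ N) (c : ℤ) {x : V} (hx : x ∈ part q w Φ c) :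
    N x ∈ part q w Φ (c - 2) := by
  have hq0 : (q : Ω) ≠ 0 := Nat.cast_ne_zero.2 (by omega)
  have h1 : part q w Φ c ≤ (part q w Φ (c - 2)).comap N := by
    refine iSup₂_le fun α hα => ?_
    intro y hy
    have h3 := hα.twist (by omega : q ≠ 0) (-1)
    rw [show c + w + 2 * (-1) = (c - 2) + w by ring] at h3
    refine Submodule.mem_iSup_of_mem _ (Submodule.mem_iSup_of_mem h3 ?_)
    have h4 : y ∈ ((q : Ω) ^ (-1 : ℤ) • Φ).maxGenEigenspace ((q : Ω) ^ (-1 : ℤ) * α) := by
      obtain ⟨k, hk⟩ := mem_gen.1 hy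
      refine mem_gen.2 ⟨k, ?_⟩
      have e : (q : Ω) ^ (-1 : ℤ) • Φ - algebraMap Ω (Module.End Ω V) ((q : Ω) ^ (-1 : ℤ) * α) =
          (q : Ω) ^ (-1 : ℤ) • (Φ - algebraMap Ω (Module.End Ω V) α) := by
        ext z
        simp only [LinearMap.sub_apply, LinearMap.smul_apply, Module.algebraMap_end_apply,
          smul_sub, smul_smul]
      rw [e, smul_pow, LinearMap.smul_apply, hk, smul_zero]
    refine gen_map N (fun z => ?_) h4
    rw [LinearMap.smul_apply, map_smul, h.comm, smul_smul, zpow_neg_one, inv_mul_cancel₀ hq0,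
      one_smul]
  exact h1 hx

lemma N_pow_part (hq : 1 < q) (h : IsRep q Φ N) (k : ℕ) {x : V} (hx : x ∈ part q w Φ k) :
    (N ^ k) x ∈ part q w Φ (-(k : ℤ)) := by
  have key : ∀ (j : ℕ) (c : ℤ) (x : V), x ∈ part q w Φ c → (N ^ j) x ∈ part q w Φ (c - 2 * j) := by
    intro j
    induction j with
    | zero => intro c x hx; simpa using hx
    | succ j ih =>
      intro c x hx
      rw [pow_succ', Module.End.mul_apply]
      have := N_part hq h _ (ih c x hx)
      rwa [show c - 2 * (j : ℤ) - 2 = c - 2 * ((j + 1 : ℕ) : ℤ) by push_cast; ring] at this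
  have := key k k x hx
  rwa [show (k : ℤ) - 2 * k = -k by ring] at this

lemma eigen_part (hq : 1 < q) (h : IsRep q Φ N) {c : ℤ} {α : Ω} {x : V}
    (hx : x ∈ part q w Φ c) (h0 : x ≠ 0) (hF : Φ x = α • x) : IsWeilNumber q (c + w) α := by
  obtain ⟨w', hw⟩ := h.weil α x h0 hF
  have h1 : x ∈ part q w Φ (w' - w) := by
    refine Submodule.mem_iSup_of_mem α (Submodule.mem_iSup_of_mem ?_ ?_)
    · rwa [show w' - w + w = w' by ring]
    · refine mem_gen.2 ⟨1, ?_⟩
      rw [pow_one, LinearMap.sub_apply, Module.algebraMap_end_apply, hF, sub_self]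
  have h2 : c = w' - w := by
    by_contra hne
    have := (indep_part (w := w) hq h).pairwiseDisjoint hne
    exact h0 (Submodule.disjoint_def.1 this x hx h1)
  rw [h2, show w' - w + w = w' by ring]
  exact hw

/-- mw purity in terms of the parts of `V` -/
theorem pure_iff [IsAlgClosed Ω] (hq : 1 < q) (h : IsRep q Φ N) :
    IsMWPure q w Φ N ↔ Centred (part q w Φ) N := by
  have hq0 : (q : Ω) ≠ 0 := Nat.cast_ne_zero.2 (by omega)
  have hfin := h.finite
  have hG := Pool.Agent.Y48.MW.t_G Ω V ⊤ (part q w Φ) Φ N (q : Ω)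
    (fun c α => IsWeilNumber q (c + w) α) (iSup_part hq h) (indep_part hq h)
    (fun c x hx => Phi_part c hx) (fun c x hx => N_part hq h c hx) hq0 (fun x _ => h.comm x)
    (fun c α x hx h0 hF => eigen_part hq h hx h0 hF)
    (fun c c' α h1 h2 => by have := weil_unique hq h1 h2; omega)
  rw [← hG]
  constructor
  · rintro ⟨M, hM, -, hw⟩
    exact ⟨M, hM.on, hw⟩
  · rintro ⟨M, hM, hw⟩
    refine ⟨M, ⟨hM.mono, hM.bot, hM.top, hM.map, hM.inj, hM.surj⟩, ?_, hw⟩
    intro a x hx
    exact hM.functorial hM Φ (fun _ _ => trivial) hq0 (fun x _ => h.comm x) a hx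

/-- the graded pieces of a morphism: the kernel is made of the parts of the image -/
lemma exact_part {V₁ V₂ V₃ : Type v} [AddCommGroup V₁] [Module Ω V₁] [AddCommGroup V₂]
    [Module Ω V₂] [AddCommGroup V₃] [Module Ω V₃] [IsAlgClosed Ω] (hq : 1 < q)
    {Φ₁ N₁ : Module.End Ω V₁} {Φ₂ N₂ : Module.End Ω V₂} (h₁ : IsRep q Φ₁ N₁) (h₂ : IsRep q Φ₂ N₂)
    (f : V₁ →ₗ[Ω] V₂) (g : V₂ →ₗ[Ω] V₃) (hf : ∀ x, f (Φ₁ x) = Φ₂ (f x)) (he : Function.Exact f g)
    (c : ℤ) {x : V₂} (hx : x ∈ part q w Φ₂ c) (h0 : g x = 0) :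
    ∃ y ∈ part q w Φ₁ c, f y = x := by
  classical
  obtain ⟨y, rfl⟩ := (he x).1 h0
  have hy : y ∈ ⨆ c, part q w Φ₁ c := by rw [iSup_part hq h₁]; trivial
  obtain ⟨s, hs⟩ := (Submodule.mem_iSup_iff_exists_finsupp _ _).1 hy
  obtain ⟨hs1, hs2⟩ := hs
  refine ⟨s c, hs1 c, ?_⟩
  have hsum : ∑ i ∈ insert c s.support, s i = y := by
    rw [← hs2, Finsupp.sum]
    exact Finset.sum_subset_zero_on_sdiff (Finset.subset_insert _ _)
      (fun i hi => by simpa using (Finset.mem_sdiff.1 hi).2) (fun _ _ => rfl) |>.symm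
  have h1 := (iSupIndep_iff_finsetSum_eq_zero_imp_eq_zero _).1 (indep_part (w := w) hq h₂)
    (insert c s.support) (fun i => f (s i) - if i = c then f y else 0) (by
      intro i _
      refine sub_mem (map_part f hf i (hs1 i)) ?_
      split_ifs with hic
      · rw [hic]; exact hx
      · exact zero_mem _) (by
      rw [Finset.sum_sub_distrib, ← map_sum, hsum, Finset.sum_ite_eq', if_pos
        (Finset.mem_insert_self _ _), sub_self]) c (Finset.mem_insert_self _ _)
  simp only [if_true] at h1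
  exact sub_eq_zero.1 h1

end

end Pool.Agent.U583.MW
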